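import Pool.Agent.Lib.MP_104f04_lc.Final

/-!
# The game domination number of proper interval graphs is computable in polynomial time

There is a polynomial-time algorithm (a polynomial-time Turing machine) that computes
`γ_g(G | S)` and `γ_g'(G | S)` for every proper interval graph `G` and every set `S` of
vertices declared already dominated.
-/

namespace Pool.Agent.Results.MP_104f04_lc.ProperInterval

open Pool.Agent.Lib.MP_104f04_lc

theorem result :
    ∃ f : (ℕ × List (ℕ × ℕ)) × List ℕ → ℕ × ℕ,
      Nonempty (Turing.TM2ComputableInPolyTime codeInput codeOutput f) ∧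
      ∀ (n : ℕ) (E : List (ℕ × ℕ)) (S : List ℕ), IsProperInterval (graphOf n E) →
        f ((n, E), S) = (gameDom (graphOf n E) true (vertexSet n S),
          gameDom (graphOf n E) false (vertexSet n S)) :=
  ⟨mainF, tm_mainF, fun n E S h => mainF_correct n E S h⟩

end Pool.Agent.Results.MP_104f04_lc.ProperInterval
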